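import Mathlib
import Pool.Agent.H85.SC.Targets

/-!
# SC: logarithms and edges
-/

namespace Pool.Agent.H27.SC

open Pool.Agent.H85.SC

theorem lg_pow (b : ℕ) : lg (2 ^ b) = b := by
  unfold lg; exact Nat.log_pow (by norm_num) b

theorem lg_eq (i b : ℕ) (h1 : 2 ^ b ≤ i) (h2 : i < 2 ^ (b + 1)) : lg i = b := by
  unfold lg
  exact Nat.log_eq_of_pow_le_of_lt_pow h1 h2

theorem lg_bounds (i : ℕ) (hi : 1 ≤ i) : 2 ^ lg i ≤ i ∧ i < 2 ^ (lg i + 1) := by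
  unfold lg
  exact ⟨Nat.pow_log_le_self 2 (by omega), Nat.lt_pow_succ_log_self (by norm_num) i⟩

theorem lg_top (b : ℕ) : lg (2 ^ (b + 1) - 1) = b := by
  have h : 1 ≤ 2 ^ b := Nat.one_le_two_pow
  have h2 : 2 ^ (b + 1) = 2 * 2 ^ b := by rw [pow_succ]; ring
  exact lg_eq _ _ (by omega) (by omega)

theorem lg_pred (i : ℕ) (hi : 1 ≤ i) (h : i ≠ 2 ^ lg i) : lg (i - 1) = lg i ∧ 2 ≤ i - 1 + 1 ∧
    2 ^ lg i < i := by
  obtain ⟨h1, h2⟩ := lg_bounds i hi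
  have h3 : 2 ^ lg i < i := lt_of_le_of_ne h1 (Ne.symm h)
  have h4 : 1 ≤ 2 ^ lg i := Nat.one_le_two_pow
  exact ⟨lg_eq _ _ (by omega) (by omega), by omega, h3⟩

theorem lvl_pow (n b : ℕ) : lvl n (2 ^ b) = n := by
  unfold lvl; rw [lg_pow]; omega

theorem lvl_top (n b : ℕ) : lvl n (2 ^ (b + 1) - 1) + 1 = n + 2 ^ b := by
  unfold lvl; rw [lg_top]
  have h : 1 ≤ 2 ^ b := Nat.one_le_two_pow
  have h2 : 2 ^ (b + 1) = 2 * 2 ^ b := by rw [pow_succ]; ring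
  omega

theorem lvl_pred (n i : ℕ) (hi : 1 ≤ i) (h : i ≠ 2 ^ lg i) : lvl n (i - 1) + 1 = lvl n i := by
  obtain ⟨h1, -, h3⟩ := lg_pred i hi h
  unfold lvl; rw [h1]; omega

theorem EM_stay (n b : ℕ) (s : ℤ) (h : n < 2 ^ b) : EM n (2 ^ (b + 1)) s = FS n (2 ^ b) s := by
  unfold EM
  rw [lg_pow, if_pos rfl, Nat.add_sub_cancel, if_pos h]

theorem EM_top (n b : ℕ) (s : ℤ) (_h : n < 2 ^ b) :
    EM (n + 2 ^ b) (2 ^ (b + 1)) s = FD n (2 ^ (b + 1) - 1) s := by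
  unfold EM
  rw [lg_pow, if_pos rfl, Nat.add_sub_cancel, if_neg (by omega), Nat.add_sub_cancel]

theorem EM_next (n i : ℕ) (s : ℤ) (h : i ≠ 2 ^ lg i) : EM n i s = FD n (i - 1) s := by
  unfold EM
  rw [if_neg h]

/-- the three kinds of edges -/
theorem edge_cases (n i : ℕ) (hV : Valid n i) (hi : i ≠ 1) :
    (∃ b, i = 2 ^ (b + 1) ∧ n < 2 ^ b) ∨
    (∃ b n', i = 2 ^ (b + 1) ∧ n = n' + 2 ^ b ∧ n' < 2 ^ b) ∨ (i ≠ 2 ^ lg i) := by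
  by_cases h : i = 2 ^ lg i
  · obtain ⟨b, hb⟩ : ∃ b, lg i = b + 1 := by
      rcases Nat.eq_zero_or_pos (lg i) with h0 | h0
      · rw [h0, pow_zero] at h; exact absurd h hi
      · exact ⟨lg i - 1, by omega⟩
    rw [hb] at h
    have hn : n < 2 ^ (b + 1) := by have := hV.2; rwa [hb] at this
    by_cases hnb : n < 2 ^ b
    · left; exact ⟨b, h, hnb⟩
    · right; left
      refine ⟨b, n - 2 ^ b, h, by omega, ?_⟩
      have h2 : 2 ^ (b + 1) = 2 * 2 ^ b := by rw [pow_succ]; ring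
      omega
  · right; right; exact h

theorem valid_stay (n b : ℕ) (h : n < 2 ^ b) : Valid n (2 ^ b) :=
  ⟨Nat.one_le_two_pow, by rw [lg_pow]; exact h⟩

theorem valid_top (n b : ℕ) (h : n < 2 ^ b) : Valid n (2 ^ (b + 1) - 1) := by
  refine ⟨?_, by rw [lg_top]; exact h⟩
  have h1 : 1 ≤ 2 ^ b := Nat.one_le_two_pow
  have h2 : 2 ^ (b + 1) = 2 * 2 ^ b := by rw [pow_succ]; ring
  omega

theorem valid_pred (n i : ℕ) (hV : Valid n i) (h : i ≠ 2 ^ lg i) : Valid n (i - 1) := by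
  obtain ⟨h1, -, h3⟩ := lg_pred i hV.1 h
  have h4 : 1 ≤ 2 ^ lg i := Nat.one_le_two_pow
  exact ⟨by omega, by rw [h1]; exact hV.2⟩

theorem mem_FA {n i : ℕ} {s z : ℤ} : z ∈ FA n i s ↔ Reg n i z ∧ s1 n i z = s ∧ s2 n i z = s ∧
    s3 n i z = s := by
  unfold FA RS
  simp only [Finset.mem_filter, Finset.mem_Ico]
  constructor
  · rintro ⟨⟨-, h⟩, h2⟩; exact ⟨h, h2⟩
  · rintro ⟨h, h2⟩; exact ⟨⟨⟨h.2.1, h.2.2.1⟩, h⟩, h2⟩

theorem mem_FS {n i : ℕ} {s z : ℤ} : z ∈ FS n i s ↔ Reg n i z ∧ s1 n i z = s ∧ s2 n i z = s ∧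
    s3 n i z = -s := by
  unfold FS RS
  simp only [Finset.mem_filter, Finset.mem_Ico]
  constructor
  · rintro ⟨⟨-, h⟩, h2⟩; exact ⟨h, h2⟩
  · rintro ⟨h, h2⟩; exact ⟨⟨⟨h.2.1, h.2.2.1⟩, h⟩, h2⟩

theorem mem_FD {n i : ℕ} {s z : ℤ} : z ∈ FD n i s ↔ Reg n i z ∧ s1 n i z ≠ s2 n i z ∧
    s3 n i z = s := by
  unfold FD RS
  simp only [Finset.mem_filter, Finset.mem_Ico]
  constructor
  · rintro ⟨⟨-, h⟩, h2⟩; exact ⟨h, h2⟩
  · rintro ⟨h, h2⟩; exact ⟨⟨⟨h.2.1, h.2.2.1⟩, h⟩, h2⟩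

end Pool.Agent.H27.SC
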