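import Mathlib
import Pool.Agent.H85.SC.Targets
import Pool.Agent.H27.SC.Edge

/-!
# SC: module GSM, the weights sum to zero on the classes
-/

namespace Pool.Agent.H27.SC

open Pool.Agent.H85.SC

theorem pm_ne {x y : ℤ} (hx : x = 1 ∨ x = -1) (hy : y = 1 ∨ y = -1) (h : x ≠ y) :
    x * y = -1 ∧ x + y = 0 := by
  rcases hx with rfl | rfl <;> rcases hy with rfl | rfl <;> simp_all

theorem pm_sq {x : ℤ} (hx : x = 1 ∨ x = -1) : x * x = 1 := by
  rcases hx with rfl | rfl <;> norm_num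

section

variable (hL : T_LAB) {S : Set ℕ} {n i : ℕ} (hn : n ∈ S)

include hL hn in
theorem GG_FA (hi : i ≠ 1) {s z : ℤ} (hs : s = 1 ∨ s = -1) (hz : z ∈ FA n i s) :
    GG S z = -((2 : ℂ) ^ lvl n i / cnt n i) * (s : ℂ) := by
  obtain ⟨hR, h1, h2, h3⟩ := mem_FA.1 hz
  rw [hL.2.2.2.1 S n i z hn hR, if_neg (fun h => hi h.1)]
  unfold wt
  rw [h1, h2, h3, pm_sq hs, one_mul]

include hL hn in
theorem GG_FS {s z : ℤ} (hs : s = 1 ∨ s = -1) (hz : z ∈ FS n i s) :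
    GG S z = ((2 : ℂ) ^ lvl n i / cnt n i) * (s : ℂ) := by
  obtain ⟨hR, h1, h2, h3⟩ := mem_FS.1 hz
  rw [hL.2.2.2.1 S n i z hn hR, if_neg]
  · unfold wt
    rw [h1, h2, h3, pm_sq hs, one_mul]
    push_cast; ring
  · rintro ⟨-, -, h⟩
    rw [h1, h3] at h
    rcases hs with rfl | rfl <;> norm_num at h

include hL hn in
theorem GG_FD {s z : ℤ} (hz : z ∈ FD n i s) :
    GG S z = ((2 : ℂ) ^ lvl n i / cnt n i) * (s : ℂ) := by
  obtain ⟨hR, h1, h3⟩ := mem_FD.1 hz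
  obtain ⟨g1, g2, -⟩ := hL.2.2.2.2.2 n i z hR
  rw [hL.2.2.2.1 S n i z hn hR, if_neg (fun h => h1 h.2.1)]
  unfold wt
  rw [(pm_ne g1 g2 h1).1, h3]
  push_cast; ring

variable (hC : T_CNT) (hB : T_CNB) (hV : Valid n i)

include hL hn hC hB hV in
theorem sum_FA (hi : i ≠ 1) {s : ℤ} (hs : s = 1 ∨ s = -1) :
    ∑ z ∈ FA n i s, GG S z = -((2 : ℂ) ^ lvl n i) * (s : ℂ) := by
  rw [Finset.sum_congr rfl fun z hz => GG_FA hL hn hi hs hz, Finset.sum_const,
    (hC n i hV s hs).1, nsmul_eq_mul]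
  have h0 : (cnt n i : ℂ) ≠ 0 := by exact_mod_cast (hB n i hV).1.ne'
  field_simp

include hL hn hC hB hV in
theorem sum_FS {s : ℤ} (hs : s = 1 ∨ s = -1) :
    ∑ z ∈ FS n i s, GG S z = (2 : ℂ) ^ lvl n i * (s : ℂ) := by
  rw [Finset.sum_congr rfl fun z hz => GG_FS hL hn hs hz, Finset.sum_const,
    (hC n i hV s hs).2.1, nsmul_eq_mul]
  have h0 : (cnt n i : ℂ) ≠ 0 := by exact_mod_cast (hB n i hV).1.ne'
  field_simp

include hL hn hC hB hV in
theorem sum_FD {s : ℤ} (hs : s = 1 ∨ s = -1) :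
    ∑ z ∈ FD n i s, GG S z = (2 : ℂ) ^ (lvl n i + 1) * (s : ℂ) := by
  rw [Finset.sum_congr rfl fun z hz => GG_FD hL hn hz, Finset.sum_const,
    (hC n i hV s hs).2.2, nsmul_eq_mul]
  have h0 : (cnt n i : ℂ) ≠ 0 := by exact_mod_cast (hB n i hV).1.ne'
  push_cast
  field_simp
  ring

end

/-- the sum over the emitting points -/
theorem sum_EM (hL : T_LAB) (hC : T_CNT) (hB : T_CNB) {S : Set ℕ} (hT : IsTree S) {n i : ℕ}
    (hn : n ∈ S) (hV : Valid n i) (hi : i ≠ 1) {s : ℤ} (hs : s = 1 ∨ s = -1) :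
    ∑ z ∈ EM n i s, GG S z = (2 : ℂ) ^ lvl n i * (s : ℂ) := by
  rcases edge_cases n i hV hi with ⟨b, rfl, hb⟩ | ⟨b, n', rfl, rfl, hb⟩ | h
  · rw [EM_stay n b s hb, sum_FS hL hn hC hB (valid_stay n b hb) hs, lvl_pow, lvl_pow]
  · have hn' : n' ∈ S := hT.2 n' b hb hn
    rw [EM_top n' b s hb, sum_FD hL hn' hC hB (valid_top n' b hb) hs, lvl_pow, lvl_top]
  · rw [EM_next n i s h, sum_FD hL hn hC hB (valid_pred n i hV h) hs, lvl_pred n i hV.1 h]

theorem gsm (hF : T_FIB) (hL : T_LAB) (hD : T_DSJ) (hC : T_CNT) (hB : T_CNB) : T_GSM := by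
  intro S hT C z hCz
  classical
  obtain ⟨f1, f2, f3⟩ := hF S hT
  have hrel : ∀ w, w ∈ C ↔ lab S w = lab S z := by
    intro w
    rw [hCz w]
    exact ⟨fun h => (Setoid.ker_def.1 h).symm, fun h => Setoid.ker_def.2 h.symm⟩
  have hz : z ∈ C := (hrel z).2 rfl
  rcases hlab : lab S z with y | ⟨n, i, s⟩ | ⟨n, i⟩ | ⟨n, i⟩
  · -- singletons
    have hzy : z = y := hL.2.2.1 S z y hlab
    have hCs : C = {z} := by
      ext w
      rw [hrel w, hlab, Finset.mem_singleton]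
      constructor
      · intro h; rw [hL.2.2.1 S w y h, hzy]
      · intro h; rw [h, hlab]
    rw [hCs, Finset.sum_singleton]
    by_cases hex : ∃ n i, n ∈ S ∧ Reg n i z
    · obtain ⟨n, i, hn, hR⟩ := hex
      have h1 := hL.1 S n i z hn hR
      rw [hlab] at h1
      rw [hL.2.2.2.1 S n i z hn hR]
      unfold labAt at h1
      split_ifs at h1 with g1 g2 g3
      rw [if_pos ⟨g3, g1, g2⟩]
    · push Not at hex
      exact hL.2.2.2.2.1 S z fun n i hn => hex n i hn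
  · -- inner classes
    obtain ⟨hn, hV, hi, hzz⟩ := (f1 n i s z).1 hlab
    have hs : s = 1 ∨ s = -1 := by
      rcases hzz with h | h
      · obtain ⟨hR, h1, -⟩ := mem_FA.1 h
        have := (hL.2.2.2.2.2 n i z hR).1
        rwa [h1] at this
      · rcases edge_cases n i hV hi with ⟨b, rfl, hb⟩ | ⟨b, n', rfl, rfl, hb⟩ | he
        · rw [EM_stay n b s hb] at h
          obtain ⟨hR, h1, -⟩ := mem_FS.1 h
          have := (hL.2.2.2.2.2 _ _ z hR).1
          rwa [h1] at this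
        · rw [EM_top n' b s hb] at h
          obtain ⟨hR, -, h3⟩ := mem_FD.1 h
          have := (hL.2.2.2.2.2 _ _ z hR).2.2
          rwa [h3] at this
        · rw [EM_next n i s he] at h
          obtain ⟨hR, -, h3⟩ := mem_FD.1 h
          have := (hL.2.2.2.2.2 _ _ z hR).2.2
          rwa [h3] at this
    have hCe : C = FA n i s ∪ EM n i s := by
      ext w
      rw [hrel w, hlab, f1 n i s w, Finset.mem_union]
      exact ⟨fun h => h.2.2.2, fun h => ⟨hn, hV, hi, h⟩⟩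
    rw [hCe, Finset.sum_union (hD.1 n i s hV hi), sum_FA hL hn hC hB hV hi hs,
      sum_EM hL hC hB hT hn hV hi hs]
    ring
  · -- lost stay points
    obtain ⟨hn, hi, hzz⟩ := (f2 n i z).1 hlab
    have hV : Valid n i := by
      rcases hzz with h | h <;> exact (mem_FS.1 h).1.1
    have hCe : C = FS n i 1 ∪ FS n i (-1) := by
      ext w
      rw [hrel w, hlab, f2 n i w, Finset.mem_union]
      exact ⟨fun h => h.2.2, fun h => ⟨hn, hi, h⟩⟩
    rw [hCe, Finset.sum_union (hD.2.1 n i).2.1, sum_FS hL hn hC hB hV (Or.inl rfl),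
      sum_FS hL hn hC hB hV (Or.inr rfl)]
    push_cast; ring
  · -- lost drop points
    obtain ⟨hn, hV, hi, hns, hzz⟩ := (f3 n i z).1 hlab
    have hCe : C = FD n i 1 ∪ FD n i (-1) := by
      ext w
      rw [hrel w, hlab, f3 n i w, Finset.mem_union]
      exact ⟨fun h => h.2.2.2.2, fun h => ⟨hn, hV, hi, hns, h⟩⟩
    rw [hCe, Finset.sum_union (hD.2.1 n i).2.2, sum_FD hL hn hC hB hV (Or.inl rfl),
      sum_FD hL hn hC hB hV (Or.inr rfl)]
    push_cast; ring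

end Pool.Agent.H27.SC
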