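import Mathlib
import Pool.Agent.H85.SC.Targets
import Pool.Agent.H27.SC.Edge
import Pool.Agent.H27.SC.GSM

/-!
# SC: module PCC, the branch function is constant on classes
-/

namespace Pool.Agent.H27.SC

open Pool.Agent.H85.SC

/-- stay mode -/
def Stay (v a : ℕ → ℕ) (n i : ℕ) : Prop := ∃ k, n = v k ∧ i = 2 ^ lg i ∧ lg i < a k

/-- drop mode -/
def Drop (v a : ℕ → ℕ) (n i : ℕ) : Prop := ∃ k, n = v k ∧ lg i = a k

section

variable {S : Set ℕ} {v a : ℕ → ℕ} (hB : IsBr S v a)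

include hB in
theorem v_mono : StrictMono v := by
  refine strictMono_nat_of_lt_succ fun k => ?_
  have := (hB.2.2 k).2
  have h1 : 1 ≤ 2 ^ a k := Nat.one_le_two_pow
  omega

include hB in
theorem excl {n i : ℕ} (h : Drop v a n i) : ¬ Stay v a n i := by
  rintro ⟨k, h1, -, h2⟩
  obtain ⟨k', h3, h4⟩ := h
  have : k = k' := (v_mono hB).injective (h1.symm.trans h3)
  subst this
  omega

theorem pv_stay {n i : ℕ} {z : ℤ} (h : Stay v a n i) :
    pv v a n i z = (1 / 2) ^ lvl n i * (((s1 n i z : ℂ) + s2 n i z) / 2) := by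
  unfold pv; exact if_pos h

include hB in
theorem pv_drop {n i : ℕ} {z : ℤ} (h : Drop v a n i) :
    pv v a n i z = (1 / 2) ^ lvl n i * (((s1 n i z : ℂ) + s2 n i z) / 4 + (s3 n i z : ℂ) / 2) := by
  unfold pv; exact (if_neg (excl hB h)).trans (if_pos h)

theorem pv_none {n i : ℕ} {z : ℤ} (h : ¬ Stay v a n i) (h' : ¬ Drop v a n i) :
    pv v a n i z = 0 := by
  unfold pv; exact (if_neg h).trans (if_neg h')

open Classical in
include hB in
theorem pv_FA {n i : ℕ} {s z : ℤ} (hz : z ∈ FA n i s) :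
    pv v a n i z = if Stay v a n i ∨ Drop v a n i then (1 / 2) ^ lvl n i * (s : ℂ) else 0 := by
  obtain ⟨-, h1, h2, h3⟩ := mem_FA.1 hz
  by_cases hs : Stay v a n i
  · rw [if_pos (Or.inl hs), pv_stay hs, h1, h2]; ring
  · by_cases hd : Drop v a n i
    · rw [if_pos (Or.inr hd), pv_drop hB hd, h1, h2, h3]; ring
    · rw [if_neg (by tauto), pv_none hs hd]

open Classical in
include hB in
theorem pv_FS {n i : ℕ} {s z : ℤ} (hz : z ∈ FS n i s) :
    pv v a n i z = if Stay v a n i then (1 / 2) ^ lvl n i * (s : ℂ) else 0 := by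
  obtain ⟨-, h1, h2, h3⟩ := mem_FS.1 hz
  by_cases hs : Stay v a n i
  · rw [if_pos hs, pv_stay hs, h1, h2]; ring
  · rw [if_neg hs]
    by_cases hd : Drop v a n i
    · rw [pv_drop hB hd, h1, h2, h3]; push_cast; ring
    · rw [pv_none hs hd]

open Classical in
include hB in
theorem pv_FD (hL : T_LAB) {n i : ℕ} {s z : ℤ} (hz : z ∈ FD n i s) :
    pv v a n i z = if Drop v a n i then (1 / 2) ^ (lvl n i + 1) * (s : ℂ) else 0 := by
  obtain ⟨hR, h1, h3⟩ := mem_FD.1 hz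
  obtain ⟨g1, g2, -⟩ := hL.2.2.2.2.2 n i z hR
  have h0 : (s1 n i z : ℂ) + s2 n i z = 0 := by
    have := (pm_ne g1 g2 h1).2
    exact_mod_cast this
  by_cases hd : Drop v a n i
  · rw [if_pos hd, pv_drop hB hd, h0, h3]; ring
  · rw [if_neg hd]
    by_cases hs : Stay v a n i
    · rw [pv_stay hs, h0]; ring
    · rw [pv_none hs hd]

/-- uniqueness of the top binary digit -/
theorem top_unique {x y b c : ℕ} (hx : x < 2 ^ b) (hy : y < 2 ^ c) (h : x + 2 ^ b = y + 2 ^ c) :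
    x = y ∧ b = c := by
  have h1 : lg (x + 2 ^ b) = b := lg_eq _ _ (by omega) (by rw [pow_succ]; omega)
  have h2 : lg (y + 2 ^ c) = c := lg_eq _ _ (by omega) (by rw [pow_succ]; omega)
  have h3 : b = c := by rw [← h1, ← h2, h]
  subst h3
  exact ⟨by omega, rfl⟩

theorem stay_pow {n b : ℕ} : Stay v a n (2 ^ b) ↔ ∃ k, n = v k ∧ b < a k := by
  unfold Stay; rw [lg_pow]; simp

theorem drop_pow {n b : ℕ} : Drop v a n (2 ^ b) ↔ ∃ k, n = v k ∧ b = a k := by
  unfold Drop; rw [lg_pow]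

theorem edge_stay {n b : ℕ} : (Stay v a n (2 ^ (b + 1)) ∨ Drop v a n (2 ^ (b + 1))) ↔
    Stay v a n (2 ^ b) := by
  rw [stay_pow, drop_pow, stay_pow]
  constructor
  · rintro (⟨k, h1, h2⟩ | ⟨k, h1, h2⟩)
    · exact ⟨k, h1, by omega⟩
    · exact ⟨k, h1, by omega⟩
  · rintro ⟨k, h1, h2⟩
    rcases Nat.lt_or_ge (b + 1) (a k) with h | h
    · left; exact ⟨k, h1, h⟩
    · right; exact ⟨k, h1, by omega⟩

include hB in
theorem edge_top {n b : ℕ} (hn : n < 2 ^ b) :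
    (Stay v a (n + 2 ^ b) (2 ^ (b + 1)) ∨ Drop v a (n + 2 ^ b) (2 ^ (b + 1))) ↔
    Drop v a n (2 ^ (b + 1) - 1) := by
  have e : Drop v a n (2 ^ (b + 1) - 1) ↔ ∃ k, n = v k ∧ b = a k := by
    unfold Drop; rw [lg_top]
  rw [edge_stay, stay_pow, e]
  constructor
  · rintro ⟨j, h1, -⟩
    obtain ⟨k, rfl⟩ : ∃ k, j = k + 1 := by
      rcases j with _ | k
      · rw [hB.1] at h1
        have : 1 ≤ 2 ^ b := Nat.one_le_two_pow
        omega
      · exact ⟨k, rfl⟩
    obtain ⟨g1, g2⟩ := hB.2.2 k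
    rw [g2] at h1
    obtain ⟨u1, u2⟩ := top_unique hn g1 h1
    exact ⟨k, u1, u2⟩
  · rintro ⟨k, h1, h2⟩
    obtain ⟨g1, g2⟩ := hB.2.2 k
    refine ⟨k + 1, by rw [g2, h1, h2], ?_⟩
    have g3 := (hB.2.2 (k + 1)).1
    rw [g2] at g3
    have g4 : 2 ^ a k < 2 ^ a (k + 1) := by omega
    rw [h2]
    exact (Nat.pow_lt_pow_iff_right (by norm_num)).1 g4

theorem edge_next {n i : ℕ} (hV : Valid n i) (h : i ≠ 2 ^ lg i) :
    (Stay v a n i ∨ Drop v a n i) ↔ Drop v a n (i - 1) := by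
  have h1 := (lg_pred i hV.1 h).1
  constructor
  · rintro (⟨k, -, h2, -⟩ | ⟨k, h2, h3⟩)
    · exact absurd h2 h
    · exact ⟨k, h2, by rw [h1]; exact h3⟩
  · rintro ⟨k, h2, h3⟩
    right; exact ⟨k, h2, by rw [← h1]; exact h3⟩

open Classical in
include hB in
/-- values on the emitting points -/
theorem pv_EM (hL : T_LAB) {n i : ℕ} (hV : Valid n i) (hi : i ≠ 1) {s z : ℤ} (hz : z ∈ EM n i s) :
    ∃ n' i', Reg n' i' z ∧ pv v a n' i' z =
      if Stay v a n i ∨ Drop v a n i then (1 / 2) ^ lvl n i * (s : ℂ) else 0 := by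
  rcases edge_cases n i hV hi with ⟨b, rfl, hb⟩ | ⟨b, n', rfl, rfl, hb⟩ | h
  · rw [EM_stay n b s hb] at hz
    refine ⟨n, 2 ^ b, (mem_FS.1 hz).1, ?_⟩
    rw [pv_FS hB hz, lvl_pow, lvl_pow]
    exact if_congr edge_stay.symm rfl rfl
  · rw [EM_top n' b s hb] at hz
    refine ⟨n', 2 ^ (b + 1) - 1, (mem_FD.1 hz).1, ?_⟩
    rw [pv_FD hB hL hz, lvl_pow, lvl_top]
    exact if_congr (edge_top hB hb).symm rfl rfl
  · rw [EM_next n i s h] at hz
    refine ⟨n, i - 1, (mem_FD.1 hz).1, ?_⟩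
    rw [pv_FD hB hL hz, lvl_pred n i hV.1 h]
    exact if_congr (edge_next hV h).symm rfl rfl

end

theorem pcc (hF : T_FIB) (hL : T_LAB) : T_PCC := by
  intro S hT v a hB F hFv m n hrel
  classical
  obtain ⟨f1, f2, f3⟩ := hF S hT
  have hmn : lab S m = lab S n := Setoid.ker_def.1 hrel
  rcases hlab : lab S n with y | ⟨N, i, s⟩ | ⟨N, i⟩ | ⟨N, i⟩
  · rw [hlab] at hmn
    rw [hL.2.2.1 S m y hmn, hL.2.2.1 S n y hlab]
  · have key : ∀ z, lab S z = Lab.inn N i s → F z =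
        if Stay v a N i ∨ Drop v a N i then (1 / 2) ^ lvl N i * (s : ℂ) else 0 := by
      intro z hz
      obtain ⟨hN, hV, hi, hzz⟩ := (f1 N i s z).1 hz
      rcases hzz with h | h
      · rw [hFv N i z (mem_FA.1 h).1, pv_FA hB h]
      · obtain ⟨n', i', hR, hv⟩ := pv_EM hB hL hV hi h
        rw [hFv n' i' z hR, hv]
    rw [key m (hmn.trans hlab), key n hlab]
  · have key : ∀ z, lab S z = Lab.lst N i → F z = 0 := by
      intro z hz
      obtain ⟨hN, hi, hzz⟩ := (f2 N i z).1 hz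
      have hns : ¬ Stay v a N i := by
        rintro ⟨k, -, h2, -⟩
        exact hi h2
      rcases hzz with h | h <;> rw [hFv N i z (mem_FS.1 h).1, pv_FS hB h, if_neg hns]
    rw [key m (hmn.trans hlab), key n hlab]
  · have key : ∀ z, lab S z = Lab.ldr N i → F z = 0 := by
      intro z hz
      obtain ⟨hN, hV, hi, hnS, hzz⟩ := (f3 N i z).1 hz
      have hns : ¬ Drop v a N i := by
        rintro ⟨k, h1, h2⟩
        apply hnS
        have := (hB.2.2 k).2
        rw [h1, h2, ← this]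
        exact hB.2.1 (k + 1)
      rcases hzz with h | h <;> rw [hFv N i z (mem_FD.1 h).1, pv_FD hB hL h, if_neg hns]
    rw [key m (hmn.trans hlab), key n hlab]

end Pool.Agent.H27.SC
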