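import Mathlib
import Pool.Agent.H85.SC.Targets
import Pool.Agent.H27.SC.Edge

/-!
# SC: module TEL, telescoping over the stations of a node
-/

namespace Pool.Agent.H27.SC

open Pool.Agent.H85.SC

theorem em_sum {S : Set ℕ} {g : ℤ → ℂ} (hR : Rels S g) (n i : ℕ) (hn : n ∈ S) (hV : Valid n i)
    (hi : i ≠ 1) : gA g n i + (∑ z ∈ EM n i 1, g z + ∑ z ∈ EM n i (-1), g z) = 0 := by
  have h1 := hR.2.1 n i 1 hn hV hi (Or.inl rfl)
  have h2 := hR.2.1 n i (-1) hn hV hi (Or.inr rfl)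
  unfold gA
  linear_combination h1 + h2

theorem block (S : Set ℕ) (g : ℤ → ℂ) (hR : Rels S g) (n b : ℕ) (hn : n ∈ S) (hb : n < 2 ^ b) :
    ∀ c, 2 ^ b ≤ c → c < 2 ^ (b + 1) →
      ∑ i ∈ Finset.Ico (2 ^ b) (c + 1), (gA g n i + gS g n i + gD g n i)
        = gA g n (2 ^ b) + gS g n (2 ^ b) + gD g n c := by
  intro c hc
  induction c, hc using Nat.le_induction with
  | base =>
    intro _
    rw [Finset.sum_Ico_succ_top le_rfl, Finset.Ico_self, Finset.sum_empty, zero_add]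
  | succ c hc ih =>
    intro hlt
    rw [Finset.sum_Ico_succ_top (by omega), ih (by omega)]
    have hlg : lg (c + 1) = b := lg_eq _ _ (by omega) hlt
    have hV : Valid n (c + 1) := ⟨by omega, by rw [hlg]; exact hb⟩
    have hne : c + 1 ≠ 2 ^ lg (c + 1) := by rw [hlg]; omega
    have h1 : 1 ≤ 2 ^ b := Nat.one_le_two_pow
    have e1 := em_sum hR n (c + 1) hn hV (by omega)
    rw [EM_next _ _ _ hne, EM_next _ _ _ hne, Nat.add_sub_cancel] at e1
    have e2 := hR.2.2.1 n (c + 1) hn hV hne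
    have e3 : gD g n c = ∑ z ∈ FD n c 1, g z + ∑ z ∈ FD n c (-1), g z := rfl
    rw [← e3] at e1
    linear_combination e1 + e2

theorem block_full (S : Set ℕ) (g : ℤ → ℂ) (hR : Rels S g) (n b : ℕ) (hn : n ∈ S)
    (hb : n < 2 ^ b) :
    ∑ i ∈ Finset.Ico (2 ^ b) (2 ^ (b + 1)), (gA g n i + gS g n i + gD g n i)
        = gA g n (2 ^ b) + gS g n (2 ^ b) + gD g n (2 ^ (b + 1) - 1) := by
  have h1 : 1 ≤ 2 ^ b := Nat.one_le_two_pow
  have h2 : 2 ^ (b + 1) = 2 * 2 ^ b := by rw [pow_succ]; ring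
  have := block S g hR n b hn hb (2 ^ (b + 1) - 1) (by omega) (by omega)
  rwa [show 2 ^ (b + 1) - 1 + 1 = 2 ^ (b + 1) by omega] at this

open Classical in
theorem gD_top (S : Set ℕ) (g : ℤ → ℂ) (hR : Rels S g) (n b : ℕ) (hn : n ∈ S)
    (hb : n < 2 ^ b) : gD g n (2 ^ (b + 1) - 1)
      = - (if n + 2 ^ b ∈ S then gA g (n + 2 ^ b) (2 ^ (b + 1)) else 0) := by
  have h1 : 1 ≤ 2 ^ b := Nat.one_le_two_pow
  have h2 : 2 ^ (b + 1) = 2 * 2 ^ b := by rw [pow_succ]; ring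
  split_ifs with hS
  · have hV : Valid (n + 2 ^ b) (2 ^ (b + 1)) :=
      ⟨by omega, by rw [lg_pow]; omega⟩
    have e1 := em_sum hR (n + 2 ^ b) (2 ^ (b + 1)) hS hV (by omega)
    rw [EM_top n b 1 hb, EM_top n b (-1) hb] at e1
    have e3 : gD g n (2 ^ (b + 1) - 1) = ∑ z ∈ FD n (2 ^ (b + 1) - 1) 1, g z
      + ∑ z ∈ FD n (2 ^ (b + 1) - 1) (-1), g z := rfl
    rw [← e3] at e1
    linear_combination e1
  · rw [neg_zero]
    refine hR.2.2.2 n (2 ^ (b + 1) - 1) hn (valid_top n b hb) ?_ ?_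
    · rw [lg_top]; omega
    · rw [lg_top]; exact hS

theorem tel (h : T_DSJ) : T_TEL := by
  intro S hT g hR n hn a ha
  classical
  have hsz : n < 2 ^ Nat.size n := Nat.lt_size_self n
  have hlt : ∀ b, Nat.size n ≤ b → n < 2 ^ b := fun b hb =>
    lt_of_lt_of_le hsz (Nat.pow_le_pow_right (by norm_num) hb)
  have hblock : ∀ b, Nat.size n ≤ b →
      ∑ i ∈ Finset.Ico (2 ^ b) (2 ^ (b + 1)), ∑ z ∈ RS n i, g z
        = gA g n (2 ^ b) + gS g n (2 ^ b)
          - (if n + 2 ^ b ∈ S then gA g (n + 2 ^ b) (2 ^ (b + 1)) else 0) := by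
    intro b hb
    have e1 : ∑ i ∈ Finset.Ico (2 ^ b) (2 ^ (b + 1)), ∑ z ∈ RS n i, g z
        = ∑ i ∈ Finset.Ico (2 ^ b) (2 ^ (b + 1)), (gA g n i + gS g n i + gD g n i) := by
      refine Finset.sum_congr rfl fun i hi => ?_
      rw [Finset.mem_Ico] at hi
      have h1 : 1 ≤ 2 ^ b := Nat.one_le_two_pow
      exact h.2.2 n i ⟨by omega, by rw [lg_eq i b hi.1 hi.2]; exact hlt b hb⟩ g
    rw [e1, block_full S g hR n b hn (hlt b hb), gD_top S g hR n b hn (hlt b hb)]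
    ring
  induction a, ha using Nat.le_induction with
  | base =>
    rw [hblock _ le_rfl]
    unfold kids
    rw [Finset.sum_filter, Finset.sum_Ico_succ_top le_rfl, Finset.Ico_self, Finset.sum_empty,
      zero_add]
  | succ a ha ih =>
    have h2 : 2 ^ (a + 1) ≤ 2 ^ (a + 1 + 1) := Nat.pow_le_pow_right (by norm_num) (by omega)
    have h3 : 2 ^ Nat.size n ≤ 2 ^ (a + 1) := Nat.pow_le_pow_right (by norm_num) (by omega)
    rw [← Finset.sum_Ico_consecutive _ h3 h2, ih, hblock (a + 1) (by omega)]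
    have e1 := em_sum hR n (2 ^ (a + 1)) hn (valid_stay n (a + 1) (hlt _ (by omega)))
      (by have : 1 ≤ 2 ^ a := Nat.one_le_two_pow
          have h2 : 2 ^ (a + 1) = 2 * 2 ^ a := by rw [pow_succ]; ring
          omega)
    rw [EM_stay n a 1 (hlt a ha), EM_stay n a (-1) (hlt a ha)] at e1
    have e3 : gS g n (2 ^ a) = ∑ z ∈ FS n (2 ^ a) 1, g z + ∑ z ∈ FS n (2 ^ a) (-1), g z := rfl
    rw [← e3] at e1
    have e4 : ∑ b ∈ kids S n (a + 1 + 1), gA g (n + 2 ^ b) (2 ^ (b + 1))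
        = ∑ b ∈ kids S n (a + 1), gA g (n + 2 ^ b) (2 ^ (b + 1))
          + (if n + 2 ^ (a + 1) ∈ S then gA g (n + 2 ^ (a + 1)) (2 ^ (a + 1 + 1)) else 0) := by
      unfold kids
      rw [Finset.sum_filter, Finset.sum_filter, Finset.sum_Ico_succ_top (by omega)]
    rw [e4]
    linear_combination e1

end Pool.Agent.H27.SC
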